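import Pool.Agent.Helper72.TNG.Ev

/-!
# MP_21b3ca_co, row CE: the cost of the server `e`
-/

namespace Pool.Agent.Helper8.TNG

open Finset

/-- The letters `x`, `b_i` and the letter `t`. -/
def CE_T (B M K K' : ℕ) (t : El B M K K') : Finset (El B M K K') :=
  insert t (KS B M K K' (fun t => decide (t = .x ∨ t = .b)))

/-- The letters `t` of kind `z, a, c, o`. -/
def CE_I (B M K K' : ℕ) : Finset (El B M K K') :=
  KS B M K K' (fun t => decide (t = .z ∨ t = .a ∨ t = .c ∨ t = .o))

theorem CE_cardT (B M K K' : ℕ) (t : El B M K K') (ht : t ∈ CE_I B M K K') :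
    (CE_T B M K K' t).card = B + 2 := by
  unfold CE_T
  rw [Finset.card_insert_of_notMem, Ev_cardKS, Ev_sumTok]
  · simp [cnt]
    omega
  · rw [Ev_memKS, decide_eq_true_eq]
    rw [CE_I, Ev_memKS, decide_eq_true_eq] at ht
    rcases ht with h | h | h | h <;> rw [h] <;> decide

theorem CE_cardI (B M K K' : ℕ) : (CE_I B M K K').card = M + 4 := by
  unfold CE_I
  rw [Ev_cardKS, Ev_sumTok]
  simp [cnt]
  omega

/-- The glued letter. -/
def CE_q (B M K K' : ℕ) (t : El B M K K') : El B M K K' :=
  if tk t = .o then eZ B M K K' else eO B M K K'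

/-- The beginning. -/
def CE_l (B M K K' : ℕ) (i : Fin B) (t : El B M K K') (s : Bool) : List (El B M K K') :=
  if s = true then [eX B M K K', t, eB M K K' i] else [t, eX B M K K', eB M K K' i]

/-- The events. -/
def CE_Q (B M K K' : ℕ) (i : Fin B × (El B M K K') × Bool) (w : List (El B M K K')) : Prop :=
  Adj (eB M K K' i.1) (CE_q B M K K' i.2.1) w ∧
    ∃ r, (w.erase (CE_q B M K K' i.2.1)).filter (fun a => decide (a ∈ CE_T B M K K' i.2.1)) =
      CE_l B M K K' i.1 i.2.1 i.2.2 ++ r ∧ True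

theorem CE_cover (hWC : ST_WC) (B M K K' : ℕ) (w : List (El B M K K'))
    (hw : w ∈ Wd (Am B M K K' (eY B M K K') (eE B M K K') .g)) (hc : coste (w.map tk)) :
    ∃ i ∈ (Finset.univ : Finset (Fin B)) ×ˢ (CE_I B M K K' ×ˢ (Finset.univ : Finset Bool)),
      CE_Q B M K K' i w := by
  obtain ⟨hnd, hmem⟩ := ((hWC (El B M K K') (Am B M K K' (eY B M K K') (eE B M K K') .g)).1 w).mp hw
  obtain ⟨u, v, huv, hx, hb⟩ := hc
  -- the two cases at once
  have key : ∃ t ∈ CE_I B M K K', ∃ w1 p w2, w = w1 ++ p :: CE_q B M K K' t :: w2 ∧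
      w1.map tk = u ∧ tk p = .b ∧ t ∈ w1 := by
    rcases huv with ⟨huv, t, ht, htt⟩ | ⟨huv, ho⟩
    · obtain ⟨w1, p, q, w2, rfl, h1, h2, h3, -⟩ := Ev_split tk w u v _ _ huv
      rw [Ev_o] at h3
      rw [← h1, List.mem_map] at ht
      obtain ⟨t', ht1, ht2⟩ := ht
      refine ⟨t', ?_, w1, p, w2, ?_, h1, h2, ht1⟩
      · rw [CE_I, Ev_memKS, decide_eq_true_eq, ht2]
        rcases htt with h | h | h
        · exact Or.inl h
        · exact Or.inr (Or.inl h)
        · exact Or.inr (Or.inr (Or.inl h))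
      · have : CE_q B M K K' t' = eO B M K K' := by
          unfold CE_q
          rw [if_neg]
          rw [ht2]
          rcases htt with h | h | h <;> rw [h] <;> decide
        rw [this, h3]
    · obtain ⟨w1, p, q, w2, rfl, h1, h2, h3, -⟩ := Ev_split tk w u v _ _ huv
      rw [Ev_z] at h3
      rw [← h1, List.mem_map] at ho
      obtain ⟨t', ht1, ht2⟩ := ho
      refine ⟨t', ?_, w1, p, w2, ?_, h1, h2, ht1⟩
      · rw [CE_I, Ev_memKS, decide_eq_true_eq, ht2]
        decide
      · have : CE_q B M K K' t' = eZ B M K K' := by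
          unfold CE_q
          rw [if_pos ht2]
        rw [this, h3]
  obtain ⟨t, htI, w1, p, w2, hww, h1, h2, htw⟩ := key
  obtain ⟨i, rfl⟩ := (Ev_b p).mp h2
  have her : w.erase (CE_q B M K K' t) = w1 ++ eB M K K' i :: w2 := by
    rw [hww] at hnd ⊢
    exact Ev_erase w1 w2 _ _ hnd
  have hnd1 : w1.Nodup := by
    rw [hww] at hnd
    exact (List.nodup_append.mp hnd).1
  have hxt : eX B M K K' ≠ t := by
    rintro rfl
    rw [CE_I, Ev_memKS, decide_eq_true_eq] at htI
    rcases htI with h | h | h | h <;> exact absurd h (by show ¬ (Tok.x = _); decide)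
  have hf : w1.filter (fun a => decide (a ∈ CE_T B M K K' t)) = [eX B M K K', t] ∨
      w1.filter (fun a => decide (a ∈ CE_T B M K K' t)) = [t, eX B M K K'] := by
    apply Ev_pair _ _ _ (hnd1.filter _) hxt
    intro a
    rw [List.mem_filter, decide_eq_true_eq, CE_T, Finset.mem_insert, Ev_memKS,
      decide_eq_true_eq]
    constructor
    · rintro ⟨hm, h | h | h⟩
      · exact Or.inr h
      · exact Or.inl ((Ev_x a).mp h)
      · exact absurd (h1 ▸ List.mem_map.mpr ⟨a, hm, h⟩) hb
    · rintro (rfl | rfl)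
      · refine ⟨?_, Or.inr (Or.inl rfl)⟩
        rw [← h1, List.mem_map] at hx
        obtain ⟨a, ha1, ha2⟩ := hx
        rw [← (Ev_x a).mp ha2]
        exact ha1
      · exact ⟨htw, Or.inl rfl⟩
  have hbT : decide (eB M K K' i ∈ CE_T B M K K' t) = true := by
    rw [decide_eq_true_eq, CE_T, Finset.mem_insert, Ev_memKS]
    exact Or.inr rfl
  have main : ∀ s : Bool, w1.filter (fun a => decide (a ∈ CE_T B M K K' t)) ++ [eB M K K' i] =
      CE_l B M K K' i t s → CE_Q B M K K' (i, t, s) w := by
    intro s hs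
    refine ⟨⟨w1, w2, hww⟩, w2.filter (fun a => decide (a ∈ CE_T B M K K' t)), ?_, trivial⟩
    show (w.erase (CE_q B M K K' t)).filter (fun a => decide (a ∈ CE_T B M K K' t)) =
      CE_l B M K K' i t s ++ _
    rw [her, List.filter_append, ← hs, List.filter_cons_of_pos (by exact hbT),
      List.append_assoc]
    rfl
  rcases hf with hf | hf
  · refine ⟨(i, t, true), ?_, main true (by rw [hf]; rfl)⟩
    simp only [Finset.mem_product, Finset.mem_univ, true_and, and_true]
    exact htI
  · refine ⟨(i, t, false), ?_, main false (by rw [hf]; rfl)⟩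
    simp only [Finset.mem_product, Finset.mem_univ, true_and, and_true]
    exact htI

theorem CE_one (hPB : ST_PB) (hER : ST_ER) (hGL : ST_GL) (hPF : ST_PF) (B M K K' : ℕ)
    (hB : 1 ≤ B) (i : Fin B) (t : El B M K K') (ht : t ∈ CE_I B M K K') (s : Bool) :
    pr (Am B M K K' (eY B M K K') (eE B M K K') .g) (CE_Q B M K K' (i, t, s)) =
      1 / (((B : ℝ) + M + 5 + K) * (B * ((B + 1) * (B + 2)))) := by
  have htk : tk t = .z ∨ tk t = .a ∨ tk t = .c ∨ tk t = .o := by
    have h := ht
    rw [CE_I, Ev_memKS, decide_eq_true_eq] at h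
    exact h
  have hqk : tk (CE_q B M K K' t) = .z ∧ tk t = .o ∨ tk (CE_q B M K K' t) = .o ∧ tk t ≠ .o := by
    unfold CE_q
    by_cases h : tk t = .o
    · rw [if_pos h]; exact Or.inl ⟨rfl, h⟩
    · rw [if_neg h]; exact Or.inr ⟨rfl, h⟩
  have hxt : eX B M K K' ≠ t := by
    rintro rfl
    rcases htk with h | h | h | h <;> exact absurd h (by show ¬ (Tok.x = _); decide)
  have hbt : eB M K K' i ≠ t := by
    rintro rfl
    rcases htk with h | h | h | h <;> exact absurd h (by show ¬ (Tok.b = _); decide)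
  have hxb : eX B M K K' ≠ eB M K K' i := by
    intro e
    exact absurd (congrArg tk e) (by show ¬ (Tok.x = Tok.b); decide)
  have hll : (CE_l B M K K' i t s).length = 3 := by
    cases s <;> rfl
  have h := Ev_pr1 hPB hER hGL hPF (Am B M K K' (eY B M K K') (eE B M K K') .g)
    (CE_T B M K K' t) (eB M K K' i) (CE_q B M K K' t) (CE_l B M K K' i t s)
    (by rw [Ev_AmE, Ev_memKS]; rfl)
    (by
      rw [Ev_AmE, Ev_memKS, decide_eq_true_eq]
      rcases hqk with ⟨h, -⟩ | ⟨h, -⟩ <;> rw [h] <;> decide)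
    (by
      intro e
      have e2 := congrArg tk e
      rcases hqk with ⟨h, -⟩ | ⟨h, -⟩ <;> rw [h] at e2
      · exact absurd e2 (by show ¬ (Tok.b = Tok.z); decide)
      · exact absurd e2 (by show ¬ (Tok.b = Tok.o); decide))
    (by
      intro a ha
      rw [CE_T, Finset.mem_insert, Ev_memKS, decide_eq_true_eq] at ha
      rw [Finset.mem_erase, Ev_AmE, Ev_memKS, decide_eq_true_eq]
      rcases ha with rfl | ha
      · constructor
        · intro e
          have e2 := congrArg tk e
          rcases hqk with ⟨h, h'⟩ | ⟨h, h'⟩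
          · rw [h, h'] at e2
            exact absurd e2 (by decide)
          · rw [h] at e2
            exact h' e2
        · rcases htk with h | h | h | h <;> rw [h] <;> decide
      · constructor
        · rintro rfl
          rcases hqk with ⟨h, -⟩ | ⟨h, -⟩ <;> rw [h] at ha <;>
            rcases ha with ha | ha <;> exact absurd ha (by decide)
        · rcases ha with h | h <;> rw [h] <;> decide)
    (by
      cases s
      · show [t, eX B M K K', eB M K K' i].Nodup
        simp [hxt.symm, hbt.symm, hxb]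
      · show [eX B M K K', t, eB M K K' i].Nodup
        simp [hxt, hbt.symm, hxb])
    (by
      intro a ha
      have ha' : a = t ∨ a = eX B M K K' ∨ a = eB M K K' i := by
        cases s
        · have : a ∈ [t, eX B M K K', eB M K K' i] := ha
          simpa using this
        · have : a ∈ [eX B M K K', t, eB M K K' i] := ha
          simp at this
          tauto
      rw [CE_T, Finset.mem_insert, Ev_memKS]
      rcases ha' with rfl | rfl | rfl
      · exact Or.inl rfl
      · exact Or.inr rfl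
      · exact Or.inr rfl)
  have h2 : pr (Am B M K K' (eY B M K K') (eE B M K K') .g) (CE_Q B M K K' (i, t, s)) =
      (1 / ((Am B M K K' (eY B M K K') (eE B M K K') .g).card : ℝ)) *
        ((((CE_T B M K K' t).card - (CE_l B M K K' i t s).length).factorial : ℝ) /
          ((CE_T B M K K' t).card.factorial : ℝ)) := h
  rw [h2, Ev_cardAmE, CE_cardT B M K K' t ht, hll]
  obtain ⟨B', rfl⟩ : ∃ B', B = B' + 1 := ⟨B - 1, by omega⟩
  have e1 : B' + 1 + 2 - 3 = B' := by omega
  rw [e1, Nat.factorial_succ (B' + 1 + 1), Nat.factorial_succ (B' + 1), Nat.factorial_succ B']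
  have hf : ((Nat.factorial B' : ℕ) : ℝ) ≠ 0 := by positivity
  push_cast
  have hS : ((B' : ℝ) + 1 + M + 5 + K) ≠ 0 := by positivity
  have hB1 : ((B' : ℝ) + 1) ≠ 0 := by positivity
  field_simp
  ring

theorem st_CE (h1 : ST_WC) (h2 : ST_PB) (h3 : ST_PU) (h4 : ST_ER) (h5 : ST_GL) (h6 : ST_PF) :
    ST_CE := by
  intro B M K K' hB
  have hle : pr (Am B M K K' (eY B M K K') (eE B M K K') .g) (fun w => coste (w.map tk)) ≤
      pr (Am B M K K' (eY B M K K') (eE B M K K') .g)
        (fun w => ∃ i ∈ (Finset.univ : Finset (Fin B)) ×ˢ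
          (CE_I B M K K' ×ˢ (Finset.univ : Finset Bool)), CE_Q B M K K' i w) :=
    (h2 _ _ _ _).2.2.1 (fun w hw hc => CE_cover h1 B M K K' w hw hc)
  have hU := (h3 (El B M K K') (Fin B × (El B M K K') × Bool)
    (Am B M K K' (eY B M K K') (eE B M K K') .g)
    ((Finset.univ : Finset (Fin B)) ×ˢ (CE_I B M K K' ×ˢ (Finset.univ : Finset Bool)))
    (CE_Q B M K K')).1
  refine hle.trans (hU.trans ?_)
  have hc : ∑ i ∈ (Finset.univ : Finset (Fin B)) ×ˢ
      (CE_I B M K K' ×ˢ (Finset.univ : Finset Bool)),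
      pr (Am B M K K' (eY B M K K') (eE B M K K') .g) (CE_Q B M K K' i) =
      ∑ i ∈ (Finset.univ : Finset (Fin B)) ×ˢ (CE_I B M K K' ×ˢ (Finset.univ : Finset Bool)),
        1 / (((B : ℝ) + M + 5 + K) * (B * ((B + 1) * (B + 2)))) := by
    apply Finset.sum_congr rfl
    rintro ⟨i, t, s⟩ hi
    simp only [Finset.mem_product, Finset.mem_univ, true_and, and_true] at hi
    exact CE_one h2 h4 h5 h6 B M K K' hB i t hi s
  rw [hc, Finset.sum_const, Finset.card_product, Finset.card_product, CE_cardI]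
  have hcard : (Finset.univ : Finset Bool).card = 2 := rfl
  rw [hcard, Finset.card_univ, Fintype.card_fin, nsmul_eq_mul]
  push_cast
  have hB0 : (0 : ℝ) < B := by exact_mod_cast hB
  have hS : (0 : ℝ) < ((B : ℝ) + M + 5 + K) := by positivity
  apply le_of_eq
  field_simp

end Pool.Agent.Helper8.TNG
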