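import Pool.Agent.Helper72.TNG.Ev

/-!
# MP_21b3ca_co, row CZ: the cost of the server `z`
-/

namespace Pool.Agent.Helper8.TNG

open Finset

/-- The letters `x`, `a_j`, `c_k`. -/
def CZ_T (B M K K' : ℕ) : Finset (El B M K K') :=
  KS B M K K' (fun t => decide (t = .x ∨ t = .a ∨ t = .c))

theorem CZ_cardT (B M K K' : ℕ) : (CZ_T B M K K').card = M + 3 := by
  unfold CZ_T
  rw [Ev_cardKS, Ev_sumTok]
  simp [cnt]
  omega

/-- The letters `o` and `e`. -/
def CZ_q (B M K K' : ℕ) (s : Bool) : El B M K K' :=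
  if s = true then eO B M K K' else eE B M K K'

/-- The event: `a_j` and `q` are adjacent, and `x, a_j` come first among the letters of `T`. -/
def CZ_Q (B M K K' : ℕ) (i : Fin 2 × Bool) (w : List (El B M K K')) : Prop :=
  Adj (eA B M K K' i.1) (CZ_q B M K K' i.2) w ∧
    ∃ r, (w.erase (CZ_q B M K K' i.2)).filter (fun a => decide (a ∈ CZ_T B M K K')) =
      [eX B M K K', eA B M K K' i.1] ++ r ∧ True

theorem CZ_cover (hWC : ST_WC) (B M K K' : ℕ) (w : List (El B M K K'))
    (hw : w ∈ Wd (Am B M K K' (eY B M K K') (eZ B M K K') .g)) (hc : costz (w.map tk)) :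
    ∃ i ∈ (Finset.univ : Finset (Fin 2 × Bool)), CZ_Q B M K K' i w := by
  obtain ⟨hnd, hmem⟩ := ((hWC (El B M K K') (Am B M K K' (eY B M K K') (eZ B M K K') .g)).1 w).mp hw
  obtain ⟨u, v, huv, hx, ha, hcc⟩ := hc
  -- the two cases at once
  have key : ∃ s : Bool, ∃ w1 p w2, w = w1 ++ p :: CZ_q B M K K' s :: w2 ∧ w1.map tk = u ∧
      tk p = .a := by
    rcases huv with huv | huv
    · obtain ⟨w1, p, q, w2, rfl, h1, h2, h3, -⟩ := Ev_split tk w u v _ _ huv
      rw [Ev_o] at h3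
      exact ⟨true, w1, p, w2, by rw [h3]; rfl, h1, h2⟩
    · obtain ⟨w1, p, q, w2, rfl, h1, h2, h3, -⟩ := Ev_split tk w u v _ _ huv
      rw [Ev_e] at h3
      exact ⟨false, w1, p, w2, by rw [h3]; rfl, h1, h2⟩
  obtain ⟨s, w1, p, w2, hww, h1, h2⟩ := key
  obtain ⟨j, rfl⟩ := (Ev_a p).mp h2
  refine ⟨(j, s), Finset.mem_univ _, ⟨w1, w2, hww⟩, ?_⟩
  have her : w.erase (CZ_q B M K K' s) = w1 ++ eA B M K K' j :: w2 := by
    rw [hww] at hnd ⊢
    exact Ev_erase w1 w2 _ _ hnd
  show ∃ r, (w.erase (CZ_q B M K K' s)).filter (fun a => decide (a ∈ CZ_T B M K K')) =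
      [eX B M K K', eA B M K K' j] ++ r ∧ True
  have hnd1 : w1.Nodup := by
    rw [hww] at hnd
    exact (List.nodup_append.mp hnd).1
  have hf : w1.filter (fun a => decide (a ∈ CZ_T B M K K')) = [eX B M K K'] := by
    apply Ev_single _ _ (hnd1.filter _)
    intro a
    rw [List.mem_filter, decide_eq_true_eq, CZ_T, Ev_memKS, decide_eq_true_eq]
    constructor
    · rintro ⟨hm, h | h | h⟩
      · exact (Ev_x a).mp h
      · exact absurd (h1 ▸ List.mem_map.mpr ⟨a, hm, h⟩) ha
      · exact absurd (h1 ▸ List.mem_map.mpr ⟨a, hm, h⟩) hcc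
    · rintro rfl
      refine ⟨?_, Or.inl rfl⟩
      rw [← h1, List.mem_map] at hx
      obtain ⟨a, ha1, ha2⟩ := hx
      rw [← (Ev_x a).mp ha2]
      exact ha1
  refine ⟨w2.filter (fun a => decide (a ∈ CZ_T B M K K')), ?_, trivial⟩
  rw [her, List.filter_append, hf, List.filter_cons_of_pos]
  · rfl
  · rw [decide_eq_true_eq, CZ_T, Ev_memKS]
    rfl

theorem CZ_one (hPB : ST_PB) (hER : ST_ER) (hGL : ST_GL) (hPF : ST_PF) (B M K K' : ℕ)
    (i : Fin 2 × Bool) :
    pr (Am B M K K' (eY B M K K') (eZ B M K K') .g) (CZ_Q B M K K' i) =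
      1 / (((B : ℝ) + M + 5 + K) * ((M + 2) * (M + 3))) := by
  obtain ⟨j, s⟩ := i
  have h := Ev_pr1 hPB hER hGL hPF (Am B M K K' (eY B M K K') (eZ B M K K') .g)
    (CZ_T B M K K') (eA B M K K' j) (CZ_q B M K K' s) [eX B M K K', eA B M K K' j]
    (by rw [Ev_AmZ, Ev_memKS]; rfl)
    (by rw [Ev_AmZ, Ev_memKS]; cases s <;> rfl)
    (by
      intro e
      have e2 := congrArg tk e
      cases s
      · exact absurd e2 (by show ¬ (Tok.a = Tok.e); decide)
      · exact absurd e2 (by show ¬ (Tok.a = Tok.o); decide))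
    (by
      intro a ha
      rw [CZ_T, Ev_memKS, decide_eq_true_eq] at ha
      rw [Finset.mem_erase, Ev_AmZ, Ev_memKS, decide_eq_true_eq]
      constructor
      · rintro rfl
        cases s
        · rcases ha with h | h | h <;> exact absurd h (by show ¬ (Tok.e = _); decide)
        · rcases ha with h | h | h <;> exact absurd h (by show ¬ (Tok.o = _); decide)
      · rcases ha with h | h | h <;> rw [h] <;> decide)
    (by
      rw [List.nodup_cons]
      refine ⟨?_, by simp⟩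
      rw [List.mem_singleton]
      intro e
      have e2 := congrArg tk e
      exact absurd e2 (by show ¬ (Tok.x = Tok.a); decide))
    (by
      intro a ha
      rw [List.mem_cons, List.mem_singleton] at ha
      rw [CZ_T, Ev_memKS]
      rcases ha with rfl | rfl <;> rfl)
  have h2 : pr (Am B M K K' (eY B M K K') (eZ B M K K') .g) (CZ_Q B M K K' (j, s)) =
      (1 / ((Am B M K K' (eY B M K K') (eZ B M K K') .g).card : ℝ)) *
        ((((CZ_T B M K K').card - [eX B M K K', eA B M K K' j].length).factorial : ℝ) /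
          ((CZ_T B M K K').card.factorial : ℝ)) := h
  rw [h2, Ev_cardAmZ, CZ_cardT]
  have e1 : M + 3 - [eX B M K K', eA B M K K' j].length = M + 1 := rfl
  rw [e1, Nat.factorial_succ (M + 2), Nat.factorial_succ (M + 1)]
  have hf : ((Nat.factorial (M + 1) : ℕ) : ℝ) ≠ 0 := by positivity
  have hS : ((B : ℝ) + M + 5 + K) ≠ 0 := by positivity
  push_cast
  field_simp
  ring

theorem st_CZ (h1 : ST_WC) (h2 : ST_PB) (h3 : ST_PU) (h4 : ST_ER) (h5 : ST_GL) (h6 : ST_PF) :
    ST_CZ := by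
  intro B M K K'
  have hle : pr (Am B M K K' (eY B M K K') (eZ B M K K') .g) (fun w => costz (w.map tk)) ≤
      pr (Am B M K K' (eY B M K K') (eZ B M K K') .g)
        (fun w => ∃ i ∈ (Finset.univ : Finset (Fin 2 × Bool)), CZ_Q B M K K' i w) :=
    (h2 _ _ _ _).2.2.1 (fun w hw hc => CZ_cover h1 B M K K' w hw hc)
  have hU := (h3 (El B M K K') (Fin 2 × Bool) (Am B M K K' (eY B M K K') (eZ B M K K') .g)
    Finset.univ (CZ_Q B M K K')).1
  refine hle.trans (hU.trans ?_)
  rw [Finset.sum_congr rfl (fun i _ => CZ_one h2 h4 h5 h6 B M K K' i), Finset.sum_const]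
  have hcard : (Finset.univ : Finset (Fin 2 × Bool)).card = 4 := rfl
  rw [hcard]
  have hS : (0 : ℝ) < ((B : ℝ) + M + 5 + K) := by positivity
  have hM : (0 : ℝ) < ((M : ℝ) + 2) * (M + 3) := by positivity
  rw [nsmul_eq_mul]
  push_cast
  rw [mul_one_div]

end Pool.Agent.Helper8.TNG
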