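import Pool.Agent.Helper8.TNG.Stmts

/-!
# MP_21b3ca_co: events used in the rows CZ, CE, GZ
-/

namespace Pool.Agent.Helper8.TNG

open Finset

section Gen

variable {α : Type} [DecidableEq α]

/-- Two glued letters and a prescribed beginning of the restriction to `T`. -/
theorem Ev_pr (hER : ST_ER) (hGL : ST_GL) (hPF : ST_PF)
    (S T : Finset α) (p q : α) (l : List α) (Q : List α → Prop)
    (hp : p ∈ S) (hq : q ∈ S) (hpq : p ≠ q) (hT : T ⊆ S.erase q) (hl : l.Nodup)
    (hlT : ∀ a ∈ l, a ∈ T) :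
    pr S (fun w => Adj p q w ∧
      ∃ r, (w.erase q).filter (fun a => decide (a ∈ T)) = l ++ r ∧ Q r) =
    (1 / (S.card : ℝ)) * ((((T.card - l.length).factorial : ℝ) / (T.card.factorial : ℝ)) *
      pr (T \ l.toFinset) Q) := by
  have h1 := hGL α S p q
    (fun v => ∃ r, v.filter (fun a => decide (a ∈ T)) = l ++ r ∧ Q r) hp hq hpq
  have h2 := hER α (S.erase q) T (fun v => ∃ r, v = l ++ r ∧ Q r) hT
  have h3 := hPF α T l Q hl hlT
  rw [h1, h2, h3]

/-- The same without a condition on the rest. -/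
theorem Ev_pr1 (hPB : ST_PB) (hER : ST_ER) (hGL : ST_GL) (hPF : ST_PF)
    (S T : Finset α) (p q : α) (l : List α)
    (hp : p ∈ S) (hq : q ∈ S) (hpq : p ≠ q) (hT : T ⊆ S.erase q) (hl : l.Nodup)
    (hlT : ∀ a ∈ l, a ∈ T) :
    pr S (fun w => Adj p q w ∧
      ∃ r, (w.erase q).filter (fun a => decide (a ∈ T)) = l ++ r ∧ True) =
    (1 / (S.card : ℝ)) * (((T.card - l.length).factorial : ℝ) / (T.card.factorial : ℝ)) := by
  rw [Ev_pr hER hGL hPF S T p q l (fun _ => True) hp hq hpq hT hl hlT]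
  rw [((hPB α (T \ l.toFinset) (fun _ => True) (fun _ => True)).2.2.2.2.1) (fun _ _ => trivial)]
  rw [mul_one]

omit [DecidableEq α] in
/-- Cutting a mapped list at two consecutive letters. -/
theorem Ev_split {β : Type} (h : α → β) (w : List α) (u v : List β) (s t : β)
    (hw : w.map h = u ++ s :: t :: v) :
    ∃ w1 p q w2, w = w1 ++ p :: q :: w2 ∧ w1.map h = u ∧ h p = s ∧ h q = t ∧
      w2.map h = v := by
  rw [List.map_eq_append_iff] at hw
  obtain ⟨w1, w2, rfl, h1, h2⟩ := hw
  rw [List.map_eq_cons_iff] at h2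
  obtain ⟨p, w3, rfl, h3, h4⟩ := h2
  rw [List.map_eq_cons_iff] at h4
  obtain ⟨q, w4, rfl, h5, h6⟩ := h4
  exact ⟨w1, p, q, w4, rfl, h1, h3, h5, h6⟩

/-- Erasing the second of two glued letters. -/
theorem Ev_erase (u v : List α) (p q : α) (h : (u ++ p :: q :: v).Nodup) :
    (u ++ p :: q :: v).erase q = u ++ p :: v := by
  have hq : q ∉ u := by
    intro hq
    rw [List.nodup_append] at h
    exact h.2.2 q hq q (by simp) rfl
  have hpq : p ≠ q := by
    rw [List.nodup_append] at h
    have := h.2.1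
    rw [List.nodup_cons] at this
    intro e
    exact this.1 (by rw [e]; simp)
  rw [List.erase_append_right _ hq, List.erase_cons_tail (by simpa using hpq),
    List.erase_cons_head]

omit [DecidableEq α] in
/-- A list without repetitions whose only letter is `x`. -/
theorem Ev_single (L : List α) (x : α) (hL : L.Nodup) (hx : ∀ a, a ∈ L ↔ a = x) :
    L = [x] := by
  have h1 : L.Perm [x] := by
    rw [List.perm_ext_iff_of_nodup hL (by simp)]
    intro a
    rw [hx a]
    simp
  exact List.perm_singleton.mp h1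

omit [DecidableEq α] in
/-- A list without repetitions with the two letters `x` and `t`. -/
theorem Ev_pair (L : List α) (x t : α) (hL : L.Nodup) (hxt : x ≠ t)
    (hx : ∀ a, a ∈ L ↔ a = x ∨ a = t) : L = [x, t] ∨ L = [t, x] := by
  have h1 : L.Perm [x, t] := by
    rw [List.perm_ext_iff_of_nodup hL (by simp [hxt])]
    intro a
    rw [hx a]
    simp
  have h2 := h1.length_eq
  match L, h2, hx, hL with
  | [a, b], _, hx, hL =>
    have ha := (hx a).mp (by simp)
    have hb := (hx b).mp (by simp)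
    have hab : a ≠ b := by
      intro e
      subst e
      simp at hL
    rcases ha with rfl | rfl
    · rcases hb with rfl | rfl
      · exact absurd rfl hab
      · left; rfl
    · rcases hb with rfl | rfl
      · right; rfl
      · exact absurd rfl hab

end Gen

section Kinds

/-- All elements whose kind satisfies `P`. -/
def KS (B M K K' : ℕ) (P : Tok → Bool) : Finset (El B M K K') :=
  Finset.univ.filter (fun p => P (tk p) = true)

theorem Ev_memKS {B M K K' : ℕ} (P : Tok → Bool) (p : El B M K K') :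
    p ∈ KS B M K K' P ↔ P (tk p) = true := by
  unfold KS
  rw [Finset.mem_filter]
  exact ⟨fun h => h.2, fun h => ⟨Finset.mem_univ _, h⟩⟩

theorem Ev_cardKS (B M K K' : ℕ) (P : Tok → Bool) :
    (KS B M K K' P).card = ∑ t : Tok, (if P t = true then cnt B M K K' t else 0) := by
  unfold KS
  rw [Finset.card_filter]
  have h : (∑ p : El B M K K', if P (tk p) = true then 1 else 0) =
      ∑ p : (Σ t : Tok, Fin (cnt B M K K' t)), if P p.1 = true then 1 else 0 := rfl
  rw [h, Fintype.sum_sigma]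
  apply Finset.sum_congr rfl
  intro t _
  by_cases hP : P t = true
  · simp [hP]
  · simp [hP]

theorem Ev_sumTok (F : Tok → ℕ) : ∑ t : Tok, F t =
    F .x + (F .y + (F .o + (F .a + (F .b + (F .c + (F .e + (F .z + (F .f + F .g)))))))) := by
  have h : (Finset.univ : Finset Tok) = {.x, .y, .o, .a, .b, .c, .e, .z, .f, .g} := rfl
  rw [h]
  rw [Finset.sum_insert (by decide), Finset.sum_insert (by decide), Finset.sum_insert (by decide),
    Finset.sum_insert (by decide), Finset.sum_insert (by decide), Finset.sum_insert (by decide),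
    Finset.sum_insert (by decide), Finset.sum_insert (by decide), Finset.sum_insert (by decide),
    Finset.sum_singleton]

theorem Ev_uniq1 {B M K K' : ℕ} (t : Tok) (h : cnt B M K K' t = 1) (p q : El B M K K')
    (hp : tk p = t) (hq : tk q = t) : p = q := by
  obtain ⟨p1, p2⟩ := p
  obtain ⟨q1, q2⟩ := q
  simp only [tk] at hp hq
  subst hp
  subst hq
  congr 1
  apply Fin.ext
  have h1 := p2.isLt
  have h2 := q2.isLt
  omega

theorem Ev_x {B M K K' : ℕ} (p : El B M K K') : tk p = .x ↔ p = eX B M K K' :=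
  ⟨fun h => Ev_uniq1 .x rfl p _ h rfl, fun h => by rw [h]; rfl⟩

theorem Ev_y {B M K K' : ℕ} (p : El B M K K') : tk p = .y ↔ p = eY B M K K' :=
  ⟨fun h => Ev_uniq1 .y rfl p _ h rfl, fun h => by rw [h]; rfl⟩

theorem Ev_o {B M K K' : ℕ} (p : El B M K K') : tk p = .o ↔ p = eO B M K K' :=
  ⟨fun h => Ev_uniq1 .o rfl p _ h rfl, fun h => by rw [h]; rfl⟩

theorem Ev_e {B M K K' : ℕ} (p : El B M K K') : tk p = .e ↔ p = eE B M K K' :=
  ⟨fun h => Ev_uniq1 .e rfl p _ h rfl, fun h => by rw [h]; rfl⟩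

theorem Ev_z {B M K K' : ℕ} (p : El B M K K') : tk p = .z ↔ p = eZ B M K K' :=
  ⟨fun h => Ev_uniq1 .z rfl p _ h rfl, fun h => by rw [h]; rfl⟩

theorem Ev_a {B M K K' : ℕ} (p : El B M K K') : tk p = .a ↔ ∃ j, p = eA B M K K' j := by
  constructor
  · intro h
    obtain ⟨p1, p2⟩ := p
    simp only [tk] at h
    subst h
    exact ⟨p2, rfl⟩
  · rintro ⟨j, rfl⟩
    rfl

theorem Ev_b {B M K K' : ℕ} (p : El B M K K') : tk p = .b ↔ ∃ i, p = eB M K K' i := by
  constructor
  · intro h
    obtain ⟨p1, p2⟩ := p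
    simp only [tk] at h
    subst h
    exact ⟨p2, rfl⟩
  · rintro ⟨j, rfl⟩
    rfl

/-- The alphabet of the server `z`. -/
theorem Ev_AmZ (B M K K' : ℕ) : Am B M K K' (eY B M K K') (eZ B M K K') .g =
    KS B M K K' (fun t => decide (t ≠ .y ∧ t ≠ .z ∧ t ≠ .g)) := by
  ext p
  unfold Am
  rw [Ev_memKS, Finset.mem_filter, Finset.mem_sdiff, Finset.mem_insert, Finset.mem_singleton,
    ← Ev_y, ← Ev_z]
  simp only [decide_eq_true_eq, Finset.mem_univ, true_and]
  tauto

/-- The alphabet of the server `e`. -/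
theorem Ev_AmE (B M K K' : ℕ) : Am B M K K' (eY B M K K') (eE B M K K') .g =
    KS B M K K' (fun t => decide (t ≠ .y ∧ t ≠ .e ∧ t ≠ .g)) := by
  ext p
  unfold Am
  rw [Ev_memKS, Finset.mem_filter, Finset.mem_sdiff, Finset.mem_insert, Finset.mem_singleton,
    ← Ev_y, ← Ev_e]
  simp only [decide_eq_true_eq, Finset.mem_univ, true_and]
  tauto

theorem Ev_cardAmZ (B M K K' : ℕ) : (Am B M K K' (eY B M K K') (eZ B M K K') .g).card =
    B + M + 5 + K := by
  rw [Ev_AmZ, Ev_cardKS, Ev_sumTok]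
  simp [cnt]
  omega

theorem Ev_cardAmE (B M K K' : ℕ) : (Am B M K K' (eY B M K K') (eE B M K K') .g).card =
    B + M + 5 + K := by
  rw [Ev_AmE, Ev_cardKS, Ev_sumTok]
  simp [cnt]
  omega

end Kinds

end Pool.Agent.Helper8.TNG
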