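import Pool.Agent.Helper72.TNG.Ev

/-!
# MP_21b3ca_co, row GZ: the gain of the server `z`
-/

namespace Pool.Agent.Helper8.TNG

open Finset

/-- The letters other than `o` and the `f`'s. -/
def GZ_T (B M K K' : ℕ) : Finset (El B M K K') :=
  KS B M K K' (fun t => decide (t = .x ∨ t = .a ∨ t = .b ∨ t = .c ∨ t = .e))

theorem GZ_cardT (B M K K' : ℕ) : (GZ_T B M K K').card = B + M + 4 := by
  unfold GZ_T
  rw [Ev_cardKS, Ev_sumTok]
  simp [cnt]
  omega

/-- The letters `a_0` and `e`. -/
def GZ_R (B M K K' : ℕ) : Finset (El B M K K') := {eA B M K K' 0, eE B M K K'}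

theorem GZ_ne (B M K K' : ℕ) : eA B M K K' 0 ≠ eE B M K K' := by
  intro e
  exact absurd (congrArg tk e) (by show ¬ (Tok.a = Tok.e); decide)

theorem GZ_cardR (B M K K' : ℕ) : (GZ_R B M K K').card = 2 := by
  unfold GZ_R
  exact Finset.card_pair (GZ_ne B M K K')

/-- The letter `a_0` comes before `e`. -/
def GZ_A (B M K K' : ℕ) (r : List (El B M K K')) : Prop :=
  ∃ r', r.filter (fun a => decide (a ∈ GZ_R B M K K')) = [eA B M K K' 0] ++ r' ∧ True

/-- The events. -/
def GZ_Q (B M K K' : ℕ) (i : Fin B) (w : List (El B M K K')) : Prop :=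
  Adj (eB M K K' i) (eO B M K K') w ∧
    ∃ r, (w.erase (eO B M K K')).filter (fun a => decide (a ∈ GZ_T B M K K')) =
      [eX B M K K', eB M K K' i] ++ r ∧ GZ_A B M K K' r

/-- The letter before `q` is unique. -/
theorem GZ_adj {α : Type} (p p' q : α) (w : List α) (hw : w.Nodup) (h : Adj p q w)
    (h' : Adj p' q w) : p = p' := by
  obtain ⟨u, v, e⟩ := h
  obtain ⟨u', v', e'⟩ := h'
  have e1 : u ++ [p] ++ q :: v = u' ++ [p'] ++ q :: v' := by
    rw [List.append_assoc, List.append_assoc, List.singleton_append, List.singleton_append,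
      ← e, ← e']
  have hn : (u ++ [p] ++ q :: v).Nodup := by
    rw [List.append_assoc, List.singleton_append, ← e]; exact hw
  have hn' : (u' ++ [p'] ++ q :: v').Nodup := by
    rw [← e1]; exact hn
  have hq : q ∉ u ++ [p] := by
    intro hq
    rw [List.nodup_append] at hn
    exact hn.2.2 q hq q (by simp) rfl
  have hq' : q ∉ u' ++ [p'] := by
    intro hq
    rw [List.nodup_append] at hn'
    exact hn'.2.2 q hq q (by simp) rfl
  have e2 : u ++ [p] = u' ++ [p'] := by
    rcases List.append_eq_append_iff.mp e1 with ⟨a, h1, h2⟩ | ⟨a, h1, h2⟩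
    · cases a with
      | nil => rw [List.append_nil] at h1; exact h1.symm
      | cons b a =>
        rw [List.cons_append] at h2
        have hb : q = b := (List.cons.inj h2).1
        exact absurd (by rw [h1, hb]; simp) hq'
    · cases a with
      | nil => rw [List.append_nil] at h1; exact h1
      | cons b a =>
        rw [List.cons_append] at h2
        have hb : q = b := (List.cons.inj h2).1
        exact absurd (by rw [h1, hb]; simp) hq
  have e3 := List.append_inj_right' e2 rfl
  exact (List.cons.inj e3).1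

theorem GZ_cover (hWC : ST_WC) (B M K K' : ℕ) (w : List (El B M K K'))
    (hw : w ∈ Wd (Am B M K K' (eY B M K K') (eZ B M K K') .g))
    (hc : ∃ i ∈ (Finset.univ : Finset (Fin B)), GZ_Q B M K K' i w) : gainz (w.map tk) := by
  obtain ⟨hnd, hmem⟩ := ((hWC (El B M K K') (Am B M K K' (eY B M K K') (eZ B M K K') .g)).1 w).mp hw
  obtain ⟨i, -, ⟨u, v, hww⟩, r, hr, hA⟩ := hc
  have her : w.erase (eO B M K K') = u ++ eB M K K' i :: v := by
    rw [hww] at hnd ⊢
    exact Ev_erase u v _ _ hnd
  have hbT : decide (eB M K K' i ∈ GZ_T B M K K') = true := by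
    rw [decide_eq_true_eq, GZ_T, Ev_memKS]
    rfl
  rw [her, List.filter_append, List.filter_cons_of_pos (by exact hbT)] at hr
  have hnu : u.Nodup ∧ eB M K K' i ∉ u ∧ eO B M K K' ∉ u := by
    rw [hww] at hnd
    rw [List.nodup_append] at hnd
    exact ⟨hnd.1, fun h => hnd.2.2 _ h _ (by simp) rfl, fun h => hnd.2.2 _ h _ (by simp) rfl⟩
  -- the part of `u` in `T` is `[x]`
  have hu : u.filter (fun a => decide (a ∈ GZ_T B M K K')) = [eX B M K K'] ∧
      v.filter (fun a => decide (a ∈ GZ_T B M K K')) = r := by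
    have hni : eB M K K' i ∉ u.filter (fun a => decide (a ∈ GZ_T B M K K')) :=
      fun h => hnu.2.1 (List.mem_filter.mp h).1
    have hxb : eX B M K K' ≠ eB M K K' i := by
      intro e
      exact absurd (congrArg tk e) (by show ¬ (Tok.x = Tok.b); decide)
    generalize u.filter (fun a => decide (a ∈ GZ_T B M K K')) = L at hr hni ⊢
    match L, hr, hni with
    | [], hr, _ => exact absurd (List.cons.inj hr).1 hxb.symm
    | [a], hr, _ =>
      have h1 := List.cons.inj hr
      have h2 := List.cons.inj h1.2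
      exact ⟨by rw [h1.1], h2.2⟩
    | a :: b :: L, hr, hni =>
      have h1 := List.cons.inj hr
      have h2 := List.cons.inj h1.2
      exact absurd (by rw [h2.1]; simp) hni
  refine ⟨u.map tk, v.map tk, ?_, ?_, ?_⟩
  · rw [hww, List.map_append]
    rfl
  · have h1 : del1 .f (u.map tk) =
        (u.filter (fun a => decide (a ∈ GZ_T B M K K'))).map tk := by
      unfold del1
      rw [List.filter_map]
      congr 1
      apply List.filter_congr
      intro a ha
      have haS : a ∈ Am B M K K' (eY B M K K') (eZ B M K K') .g := by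
        rw [← hmem, hww]
        exact List.mem_append_left _ ha
      rw [Ev_AmZ, Ev_memKS, decide_eq_true_eq] at haS
      have hao : tk a ≠ .o := by
        intro h
        rw [Ev_o] at h
        exact hnu.2.2 (h ▸ ha)
      rw [Function.comp_apply, decide_eq_decide, GZ_T, Ev_memKS, decide_eq_true_eq]
      revert haS hao
      generalize tk a = t
      cases t <;> decide
    rw [h1, hu.1]
    rfl
  · obtain ⟨r', hr', -⟩ := hA
    rw [← hu.2, List.filter_filter] at hr'
    have ha0 : eA B M K K' 0 ∈ v := by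
      have h1 : eA B M K K' 0 ∈ [eA B M K K' 0] ++ r' := by simp
      rw [← hr'] at h1
      exact (List.mem_filter.mp h1).1
    obtain ⟨v1, v2, hv⟩ := List.append_of_mem ha0
    have hvn : v.Nodup := by
      rw [hww] at hnd
      exact (List.nodup_cons.mp (List.nodup_cons.mp (List.nodup_append.mp hnd).2.1).2).2
    have ha1 : eA B M K K' 0 ∉ v1 := by
      intro h
      rw [hv, List.nodup_append] at hvn
      exact hvn.2.2 _ h _ (by simp) rfl
    refine ⟨v1.map tk, v2.map tk, ?_, ?_⟩
    · rw [hv, List.map_append]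
      rfl
    · intro he
      rw [List.mem_map] at he
      obtain ⟨a, ha, hae⟩ := he
      rw [Ev_e] at hae
      subst hae
      rw [hv, List.filter_append] at hr'
      have hel : eE B M K K' ∈ v1.filter (fun a => (decide (a ∈ GZ_R B M K K') &&
          decide (a ∈ GZ_T B M K K'))) := by
        rw [List.mem_filter]
        refine ⟨ha, ?_⟩
        rw [Bool.and_eq_true, decide_eq_true_eq, decide_eq_true_eq]
        constructor
        · rw [GZ_R]; simp
        · rw [GZ_T, Ev_memKS]; rfl
      have hal : eA B M K K' 0 ∉ v1.filter (fun a => (decide (a ∈ GZ_R B M K K') &&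
          decide (a ∈ GZ_T B M K K'))) := fun h => ha1 (List.mem_filter.mp h).1
      generalize v1.filter (fun a => (decide (a ∈ GZ_R B M K K') &&
          decide (a ∈ GZ_T B M K K'))) = L at hr' hel hal
      cases L with
      | nil => simp at hel
      | cons b L =>
        rw [List.cons_append] at hr'
        exact hal (by rw [(List.cons.inj hr').1]; simp)

theorem GZ_half (hPB : ST_PB) (hER : ST_ER) (hPF : ST_PF) (B M K K' : ℕ)
    (S : Finset (El B M K K')) (hS : GZ_R B M K K' ⊆ S) :
    pr S (GZ_A B M K K') = 1 / 2 := by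
  have h1 := hER (El B M K K') S (GZ_R B M K K')
    (fun v => ∃ r', v = [eA B M K K' 0] ++ r' ∧ True) hS
  have h2 := hPF (El B M K K') (GZ_R B M K K') [eA B M K K' 0] (fun _ => True) (by simp)
    (by
      intro a ha
      rw [List.mem_singleton] at ha
      rw [ha, GZ_R]
      simp)
  have h3 : pr S (GZ_A B M K K') = pr S (fun w => (fun v => ∃ r', v = [eA B M K K' 0] ++ r' ∧ True)
      (w.filter (fun p => decide (p ∈ GZ_R B M K K')))) := rfl
  rw [h3, h1, h2]
  rw [((hPB (El B M K K') (GZ_R B M K K' \ [eA B M K K' 0].toFinset) (fun _ => True)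
    (fun _ => True)).2.2.2.2.1) (fun _ _ => trivial), GZ_cardR]
  simp

theorem GZ_one (hPB : ST_PB) (hER : ST_ER) (hGL : ST_GL) (hPF : ST_PF) (B M K K' : ℕ)
    (i : Fin B) :
    pr (Am B M K K' (eY B M K K') (eZ B M K K') .g) (GZ_Q B M K K' i) =
      1 / (2 * ((B : ℝ) + M + 5 + K) * ((B + M + 4) * (B + M + 3))) := by
  have h := Ev_pr hER hGL hPF (Am B M K K' (eY B M K K') (eZ B M K K') .g)
    (GZ_T B M K K') (eB M K K' i) (eO B M K K') [eX B M K K', eB M K K' i] (GZ_A B M K K')
    (by rw [Ev_AmZ, Ev_memKS]; rfl)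
    (by rw [Ev_AmZ, Ev_memKS]; rfl)
    (by
      intro e
      exact absurd (congrArg tk e) (by show ¬ (Tok.b = Tok.o); decide))
    (by
      intro a ha
      rw [GZ_T, Ev_memKS, decide_eq_true_eq] at ha
      rw [Finset.mem_erase, Ev_AmZ, Ev_memKS, decide_eq_true_eq]
      constructor
      · rintro rfl
        rcases ha with h | h | h | h | h <;> exact absurd h (by show ¬ (Tok.o = _); decide)
      · rcases ha with h | h | h | h | h <;> rw [h] <;> decide)
    (by
      rw [List.nodup_cons]
      refine ⟨?_, by simp⟩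
      rw [List.mem_singleton]
      intro e
      exact absurd (congrArg tk e) (by show ¬ (Tok.x = Tok.b); decide))
    (by
      intro a ha
      rw [List.mem_cons, List.mem_singleton] at ha
      rw [GZ_T, Ev_memKS]
      rcases ha with rfl | rfl <;> rfl)
  have hR : GZ_R B M K K' ⊆ GZ_T B M K K' \ [eX B M K K', eB M K K' i].toFinset := by
    intro a ha
    rw [GZ_R, Finset.mem_insert, Finset.mem_singleton] at ha
    rw [Finset.mem_sdiff, GZ_T, Ev_memKS, List.mem_toFinset, List.mem_cons,
      List.mem_singleton]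
    rcases ha with rfl | rfl
    · refine ⟨rfl, ?_⟩
      rintro (e | e)
      · exact absurd (congrArg tk e) (by show ¬ (Tok.a = Tok.x); decide)
      · exact absurd (congrArg tk e) (by show ¬ (Tok.a = Tok.b); decide)
    · refine ⟨rfl, ?_⟩
      rintro (e | e)
      · exact absurd (congrArg tk e) (by show ¬ (Tok.e = Tok.x); decide)
      · exact absurd (congrArg tk e) (by show ¬ (Tok.e = Tok.b); decide)
  rw [GZ_half hPB hER hPF B M K K' _ hR] at h
  have h2 : pr (Am B M K K' (eY B M K K') (eZ B M K K') .g) (GZ_Q B M K K' i) =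
      (1 / ((Am B M K K' (eY B M K K') (eZ B M K K') .g).card : ℝ)) *
        ((((GZ_T B M K K').card - [eX B M K K', eB M K K' i].length).factorial : ℝ) /
          ((GZ_T B M K K').card.factorial : ℝ) * (1 / 2)) := h
  rw [h2, Ev_cardAmZ, GZ_cardT]
  have e1 : B + M + 4 - [eX B M K K', eB M K K' i].length = B + M + 2 := rfl
  rw [e1, Nat.factorial_succ (B + M + 3), Nat.factorial_succ (B + M + 2)]
  have hf : ((Nat.factorial (B + M + 2) : ℕ) : ℝ) ≠ 0 := by positivity
  have hS : ((B : ℝ) + M + 5 + K) ≠ 0 := by positivity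
  push_cast
  field_simp
  ring

theorem st_GZ (h1 : ST_WC) (h2 : ST_PB) (h3 : ST_PU) (h4 : ST_ER) (h5 : ST_GL) (h6 : ST_PF) :
    ST_GZ := by
  intro B M K K' hB
  have hle : pr (Am B M K K' (eY B M K K') (eZ B M K K') .g)
        (fun w => ∃ i ∈ (Finset.univ : Finset (Fin B)), GZ_Q B M K K' i w) ≤
      pr (Am B M K K' (eY B M K K') (eZ B M K K') .g) (fun w => gainz (w.map tk)) :=
    (h2 _ _ _ _).2.2.1 (fun w hw hc => GZ_cover h1 B M K K' w hw hc)
  have hU := (h3 (El B M K K') (Fin B) (Am B M K K' (eY B M K K') (eZ B M K K') .g)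
    Finset.univ (GZ_Q B M K K')).2 (by
      intro w hw i _ j _ hi hj
      have hnd := (((h1 (El B M K K')
        (Am B M K K' (eY B M K K') (eZ B M K K') .g)).1 w).mp hw).1
      have he := GZ_adj _ _ _ w hnd hi.1 hj.1
      have he2 := Sigma.mk.inj_iff.mp he
      exact eq_of_heq he2.2)
  refine le_trans (le_of_eq ?_) hle
  rw [hU, Finset.sum_congr rfl (fun i _ => GZ_one h2 h4 h5 h6 B M K K' i), Finset.sum_const,
    Finset.card_univ, Fintype.card_fin, nsmul_eq_mul]
  rw [mul_one_div]

end Pool.Agent.Helper8.TNG
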